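import Pool.Agent.W662.CB.Stmts2
import Pool.Agent.W917.CB.D2

/-!
# Project CB2: averaging over the unitaries of the corner, with the norm bound (`S_Q2`)
-/

set_option autoImplicit false

open Filter Topology Complex
open scoped InnerProductSpace

namespace Pool.Agent.W373.CB2

open Pool.Agent.W662.CB
open Pool.Agent.W917.CB.D2 (wlim wlim_mem right_p left_p norm_iso norm_p_le norm_u_le inner_star
  min_elt corner ofcorner papp UU hmulU star_right nl nr C0 self_mem hconj hconv)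

theorem q2 : S_Q2 := by
  intro K _ _ _ A B hAB p hpA hp hs ζ hTr Z r hZB hZp hZr
  obtain ⟨hζ, hnorm, hsep⟩ := hTr
  have hpB : p ∈ B := hAB p hpA
  have hpU : p ∈ UU A p := ⟨hpA, by rw [hs, hp], by rw [hs, hp]⟩
  have hZC : Z ∈ C0 A B p Z ζ r := self_mem hAB hp hs hnorm hZB hZp hZr
  obtain ⟨η, hη, hmin'⟩ := min_elt ((fun W : K →L[ℂ] K => W ζ) '' C0 A B p Z ζ r)
    ⟨Z ζ, ⟨Z, hZC, rfl⟩⟩ (by
      rintro _ ⟨W1, hW1, rfl⟩ _ ⟨W2, hW2, rfl⟩ a b ha hb hab
      exact ⟨(a : ℂ) • W1 + (b : ℂ) • W2, hconv hW1 hW2 ha hb hab, rfl⟩)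
  obtain ⟨x, hxS, hx⟩ := mem_closure_iff_seq_limit.1 hη
  choose W hWC hWx using hxS
  have hWx' : ∀ n, W n ζ = x n := hWx
  have hGle : ((hyperfilter ℕ : Ultrafilter ℕ) : Filter ℕ) ≤ atTop := Nat.hyperfilter_le_atTop
  obtain ⟨Z0, hZ0n, hlim⟩ := wlim (hyperfilter ℕ) ‖Z‖ W (fun n => (hWC n).2.2.1)
  have hZ0B : Z0 ∈ B := wlim_mem (hyperfilter ℕ) B W (fun n => (hWC n).1) Z0 hlim
  have hZ0p : p * Z0 * p = Z0 := by
    ext b
    refine ext_inner_left ℂ fun a => ?_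
    have h1 : Tendsto (fun n => ⟪star p a, W n (p b)⟫_ℂ) (hyperfilter ℕ)
        (𝓝 ⟪star p a, Z0 (p b)⟫_ℂ) := hlim _ _
    have h2 := hlim a b
    have h3 : ∀ n, ⟪star p a, W n (p b)⟫_ℂ = ⟪a, W n b⟫_ℂ := by
      intro n
      rw [← inner_star]
      have := congrArg (fun T : K →L[ℂ] K => T b) (hWC n).2.1
      simp only [mul_apply_eq_comp] at this
      rw [this]
    simp only [h3] at h1
    have h4 := tendsto_nhds_unique h1 h2
    rw [← inner_star] at h4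
    exact h4
  have hZ0η : Z0 ζ = η := by
    refine ext_inner_left ℂ fun a => ?_
    have h1 := hlim a ζ
    simp only [hWx'] at h1
    have h2 : Tendsto (fun n => ⟪a, x n⟫_ℂ) (hyperfilter ℕ) (𝓝 ⟪a, η⟫_ℂ) :=
      (tendsto_const_nhds.inner hx).mono_left hGle
    exact tendsto_nhds_unique h1 h2
  refine ⟨Z0, hZ0B, hZ0p, ?_, hZ0n, ?_⟩
  · have h1 : ∀ n, ‖Z ζ - x n‖ ≤ r := by
      intro n
      have h2 := (hWC n).2.2.2 p hpU
      rw [hs, (hWC n).2.1] at h2
      rw [← hWx' n]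
      exact h2
    have h2 : Tendsto (fun n => ‖Z ζ - x n‖) atTop (𝓝 ‖Z ζ - η‖) :=
      (tendsto_const_nhds.sub hx).norm
    have h3 := le_of_tendsto' h2 h1
    have h4 : (Z - Z0) ζ = Z ζ - η := by
      rw [← hZ0η]
      rfl
    rw [h4]
    exact h3
  · intro u hu1 hu2 hu3
    have huU : u ∈ UU A p := ⟨hu1, hu2, hu3⟩
    have huB : u ∈ B := hAB u hu1
    obtain ⟨hZ01, hZ02⟩ := corner hp hZ0p
    have hpu := left_p hp hs hu3
    have hsu : star u * p = star u := star_right hp hs hu3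
    -- the norm
    have hn : ‖(u * Z0 * star u) ζ‖ = ‖η‖ := by
      have h1 : ‖(u * Z0 * star u) ζ‖ = ‖(Z0 * star u) ζ‖ := by
        rw [mul_assoc]
        exact nl huU (by rw [← mul_assoc, hZ01]) ζ
      rw [h1, nr hAB hp hs hnorm huU hZ0B hZ0p, hZ0η]
    -- the inner product
    have hin : ‖η‖ ^ 2 ≤ (⟪η, (u * Z0 * star u) ζ⟫_ℂ).re := by
      have h1 : Tendsto (fun n => ⟪star u η, W n (star u ζ)⟫_ℂ) (hyperfilter ℕ)
          (𝓝 ⟪star u η, Z0 (star u ζ)⟫_ℂ) := hlim _ _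
      have h2 : Tendsto (fun n => (⟪star u η, W n (star u ζ)⟫_ℂ).re) (hyperfilter ℕ)
          (𝓝 (⟪star u η, Z0 (star u ζ)⟫_ℂ).re) :=
        (Complex.continuous_re.tendsto _).comp h1
      have h3 : ∀ n, ‖η‖ ^ 2 ≤ (⟪star u η, W n (star u ζ)⟫_ℂ).re := by
        intro n
        rw [← inner_star]
        exact hmin' _ (subset_closure ⟨u * W n * star u, hconj hAB hp hs (hWC n) huU, rfl⟩)
      have h4 := ge_of_tendsto' h2 h3
      rw [← inner_star] at h4
      exact h4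
    have heq : (u * Z0 * star u) ζ = η := by
      have h1 : ‖η - (u * Z0 * star u) ζ‖ ^ 2 ≤ 0 := by
        have h2 := @norm_sub_sq ℂ K _ _ _ η ((u * Z0 * star u) ζ)
        rw [h2, hn]
        have h3 : RCLike.re ⟪η, (u * Z0 * star u) ζ⟫_ℂ = (⟪η, (u * Z0 * star u) ζ⟫_ℂ).re := rfl
        rw [h3]
        linarith
      have h4 : ‖η - (u * Z0 * star u) ζ‖ = 0 := by
        have := norm_nonneg (η - (u * Z0 * star u) ζ)
        nlinarith
      exact (sub_eq_zero.1 (norm_eq_zero.1 h4)).symm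
    have hzero : u * Z0 * star u - Z0 = 0 := by
      refine hsep _ (sub_mem (mul_mem (mul_mem huB hZ0B) (star_mem huB)) hZ0B) ?_ ?_
      · refine ofcorner ?_ ?_
        · rw [mul_sub, ← mul_assoc, ← mul_assoc, hpu, hZ01]
        · rw [sub_mul, mul_assoc, hsu, hZ02]
      · have h6 : (u * Z0 * star u - Z0) ζ = (u * Z0 * star u) ζ - Z0 ζ := rfl
        rw [h6, heq, hZ0η, sub_self]
    have h5 : u * Z0 * star u = Z0 := sub_eq_zero.1 hzero
    calc u * Z0 = u * (Z0 * p) := by rw [hZ02]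
      _ = u * Z0 * star u * u := by
        rw [← hu2]
        simp only [mul_assoc]
      _ = Z0 * u := by rw [h5]

end Pool.Agent.W373.CB2
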